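import Mathlib

namespace Pool.Agent.H22.Fe032b8

/-- `S`, a set of points of the grid `{0, …, k - 1}ⁿ`, is line-free: no `k` distinct points of `S`
lie on one straight line of `ℝⁿ`. -/
def LineFree {k n : ℕ} (S : Finset (Fin n → Fin k)) : Prop :=
  ∀ T : Finset (Fin n → Fin k), T ⊆ S → T.card = k →
    ¬ Collinear ℝ ((fun (x : Fin n → Fin k) (i : Fin n) => ((x i : ℕ) : ℝ)) ''
        (T : Set (Fin n → Fin k)))

end Pool.Agent.H22.Fe032b8
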