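import Mathlib
import Pool.Agent.H22.Fe032b8.Defs

open Finset

namespace Pool.Agent.H22.Fe032b8

/-- `k` collinear points of the grid form a geometric line. -/
theorem line_structure {k n : ℕ} (hk : 2 ≤ k) (T : Finset (Fin n → Fin k)) (hT : T.card = k)
    (hcol : Collinear ℝ ((fun (x : Fin n → Fin k) (i : Fin n) => ((x i : ℕ) : ℝ)) ''
        (T : Set (Fin n → Fin k)))) :
    ∃ X : Fin k → (Fin n → Fin k), (∀ s, X s ∈ T) ∧ (∃ i, ∀ s, X s i = s) ∧
      ∀ j, (∀ s t, X s j = X t j) ∨ (∀ s, X s j = s) ∨ (∀ s, (X s j : ℕ) + s = k - 1) := by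
  classical
  have h2 : 1 < T.card := by omega
  obtain ⟨p, hp, q, hq, hpq⟩ := Finset.one_lt_card.1 h2
  set φ : (Fin n → Fin k) → (Fin n → ℝ) := fun x i => ((x i : ℕ) : ℝ) with hφ
  have hpmem : φ p ∈ φ '' (T : Set (Fin n → Fin k)) := ⟨p, hp, rfl⟩
  obtain ⟨v, hv⟩ := (collinear_iff_of_mem hpmem).1 hcol
  have hv' : ∀ x ∈ T, ∃ r : ℝ, ∀ j, ((x j : ℕ) : ℝ) = r * v j + ((p j : ℕ) : ℝ) := by
    intro x hx
    obtain ⟨r, hr⟩ := hv (φ x) ⟨x, hx, rfl⟩
    refine ⟨r, fun j => ?_⟩
    have := congrFun hr j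
    simpa [hφ] using this
  obtain ⟨i, hi⟩ : ∃ i, p i ≠ q i := by
    by_contra hcon
    push Not at hcon
    exact hpq (funext hcon)
  have hvi : v i ≠ 0 := by
    intro h0
    obtain ⟨r, hr⟩ := hv' q hq
    have := hr i
    rw [h0, mul_zero, zero_add] at this
    have h3 : (q i : ℕ) = (p i : ℕ) := by exact_mod_cast this
    exact hi (Fin.ext h3.symm)
  have hinj : Set.InjOn (fun x : Fin n → Fin k => x i) (T : Set (Fin n → Fin k)) := by
    intro x hx y hy hxy
    obtain ⟨r, hr⟩ := hv' x hx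
    obtain ⟨r', hr'⟩ := hv' y hy
    have hxy' : x i = y i := hxy
    have h3 : r * v i = r' * v i := by
      have h4 := hr i
      have h5 := hr' i
      rw [hxy'] at h4
      linarith
    have h6 : r = r' := mul_right_cancel₀ hvi h3
    funext j
    have h7 := hr j
    have h8 := hr' j
    rw [h6] at h7
    have : ((x j : ℕ) : ℝ) = ((y j : ℕ) : ℝ) := by rw [h7, h8]
    exact Fin.ext (by exact_mod_cast this)
  have himg : T.image (fun x => x i) = Finset.univ := by
    apply Finset.eq_univ_of_card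
    rw [Finset.card_image_of_injOn hinj, hT, Fintype.card_fin]
  have hex : ∀ s : Fin k, ∃ x ∈ T, x i = s := by
    intro s
    have : s ∈ T.image (fun x => x i) := by rw [himg]; exact Finset.mem_univ _
    simpa using this
  choose X hX1 hX2 using hex
  refine ⟨X, hX1, ⟨i, hX2⟩, fun j => ?_⟩
  -- affine in the parameter
  obtain ⟨a, b, hab⟩ : ∃ a b : ℝ, ∀ s : Fin k, ((X s j : ℕ) : ℝ) = a + b * ((s : ℕ) : ℝ) := by
    refine ⟨((p j : ℕ) : ℝ) - v j / v i * ((p i : ℕ) : ℝ), v j / v i, fun s => ?_⟩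
    obtain ⟨r, hr⟩ := hv' (X s) (hX1 s)
    have h3 := hr i
    rw [hX2 s] at h3
    have h4 : r = (((s : ℕ) : ℝ) - ((p i : ℕ) : ℝ)) / v i := by
      field_simp
      linarith
    rw [hr j, h4]
    field_simp
    ring
  have hk0 : 0 < k := by omega
  have h0 := hab ⟨0, hk0⟩
  have h1 := hab ⟨1, by omega⟩
  have hl := hab ⟨k - 1, by omega⟩
  have hkr : ((k - 1 : ℕ) : ℝ) = (k : ℝ) - 1 := by
    rw [Nat.cast_sub (by omega)]; simp
  simp only [Nat.cast_zero, mul_zero, add_zero, Nat.cast_one, mul_one, hkr] at h0 h1 hl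
  have hkpos : (1 : ℝ) ≤ (k : ℝ) - 1 := by
    have : (2 : ℝ) ≤ k := by exact_mod_cast hk
    linarith
  -- bounds
  have hb0 : ∀ s : Fin k, (0 : ℝ) ≤ ((X s j : ℕ) : ℝ) := fun s => Nat.cast_nonneg _
  have hb1 : ∀ s : Fin k, ((X s j : ℕ) : ℝ) ≤ (k : ℝ) - 1 := by
    intro s
    rw [← hkr]
    exact_mod_cast (by have := (X s j).isLt; omega : (X s j : ℕ) ≤ k - 1)
  -- `b` is an integer in `{-1, 0, 1}`
  obtain ⟨z, hz⟩ : ∃ z : ℤ, b = z := by
    refine ⟨((X ⟨1, by omega⟩ j : ℕ) : ℤ) - ((X ⟨0, hk0⟩ j : ℕ) : ℤ), ?_⟩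
    push_cast
    linarith
  have hzle : z ≤ 1 := by
    have h3 : b * ((k : ℝ) - 1) ≤ (k : ℝ) - 1 := by
      have := hb0 ⟨0, hk0⟩
      have := hb1 ⟨k - 1, by omega⟩
      linarith
    have h4 : b ≤ 1 := by
      by_contra hcon
      push Not at hcon
      nlinarith
    rw [hz] at h4
    exact_mod_cast h4
  have hzge : -1 ≤ z := by
    have h3 : -((k : ℝ) - 1) ≤ b * ((k : ℝ) - 1) := by
      have := hb0 ⟨k - 1, by omega⟩
      have := hb1 ⟨0, hk0⟩
      linarith
    have h4 : -1 ≤ b := by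
      by_contra hcon
      push Not at hcon
      nlinarith
    rw [hz] at h4
    exact_mod_cast h4
  have hz3 : z = -1 ∨ z = 0 ∨ z = 1 := by omega
  rcases hz3 with hz3 | hz3 | hz3
  · -- reversed
    right; right
    intro s
    have hb : b = -1 := by rw [hz, hz3]; norm_num
    have ha : a = (k : ℝ) - 1 := by
      have := hb0 ⟨k - 1, by omega⟩
      have := hb1 ⟨0, hk0⟩
      rw [hb] at hl
      linarith
    have h5 := hab s
    rw [ha, hb] at h5
    have h6 : ((X s j : ℕ) : ℝ) + ((s : ℕ) : ℝ) = ((k - 1 : ℕ) : ℝ) := by rw [hkr]; linarith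
    exact_mod_cast h6
  · left
    intro s t
    have hb : b = 0 := by rw [hz, hz3]; norm_num
    have h5 := hab s
    have h6 := hab t
    rw [hb, zero_mul] at h5 h6
    have : ((X s j : ℕ) : ℝ) = ((X t j : ℕ) : ℝ) := by rw [h5, h6]
    exact Fin.ext (by exact_mod_cast this)
  · right; left
    intro s
    have hb : b = 1 := by rw [hz, hz3]; norm_num
    have ha : a = 0 := by
      have := hb1 ⟨k - 1, by omega⟩
      have := hb0 ⟨0, hk0⟩
      rw [hb] at hl
      linarith
    have h5 := hab s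
    rw [ha, hb] at h5
    have h6 : ((X s j : ℕ) : ℝ) = ((s : ℕ) : ℝ) := by linarith
    exact Fin.ext (by exact_mod_cast h6)

/-- The weight of a coordinate. -/
def g {k : ℕ} (a : Fin k) : ℕ :=
  if a.val = 0 ∨ a.val = k - 1 then 0 else if a.val = 1 ∨ a.val = k - 2 then 1 else 2

theorem g_le {k : ℕ} (a : Fin k) : g a ≤ 2 := by
  unfold g; split_ifs <;> omega

def stat {k n : ℕ} (x : Fin n → Fin k) : ℕ := ∑ i, g (x i)

/-- Sets defined by the statistic through a 3AP-free set are line-free. -/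
theorem lineFree_of_threeAPFree {k n : ℕ} (hk : 5 ≤ k) (B : Set ℕ) (hB : ThreeAPFree B)
    (S : Finset (Fin n → Fin k)) (hS : ∀ x ∈ S, stat x ∈ B) : LineFree S := by
  intro T hTS hT hcol
  obtain ⟨X, hX, ⟨i, hi⟩, hj⟩ := line_structure (by omega) T hT hcol
  set s0 : Fin k := ⟨0, by omega⟩
  set s1 : Fin k := ⟨1, by omega⟩
  set s2 : Fin k := ⟨2, by omega⟩
  have hloc : ∀ j, g (X s0 j) + g (X s2 j) = g (X s1 j) + g (X s1 j) ∧ g (X s0 j) ≤ g (X s1 j) := by
    intro j
    rcases hj j with h | h | h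
    · rw [h s0 s1, h s2 s1]; exact ⟨rfl, le_rfl⟩
    · rw [h s0, h s1, h s2]
      have e0 : g s0 = 0 := by unfold g; simp [s0]
      have e1 : g s1 = 1 := by
        unfold g; rw [if_neg (by simp [s1]; omega), if_pos (by simp [s1])]
      have e2 : g s2 = 2 := by
        unfold g; rw [if_neg (by simp [s2]; omega), if_neg (by simp [s2]; omega)]
      rw [e0, e1, e2]; omega
    · have h0 := h s0
      have h1 := h s1
      have h2 := h s2
      simp only [s0, s1, s2] at h0 h1 h2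
      have e0 : g (X s0 j) = 0 := by unfold g; simp only [s0]; rw [if_pos (by omega)]
      have e1 : g (X s1 j) = 1 := by
        unfold g; simp only [s1]; rw [if_neg (by omega), if_pos (by omega)]
      have e2 : g (X s2 j) = 2 := by
        unfold g; simp only [s2]; rw [if_neg (by omega), if_neg (by omega)]
      rw [e0, e1, e2]; omega
  have hi' : g (X s0 i) < g (X s1 i) := by
    rw [hi s0, hi s1]
    have e0 : g s0 = 0 := by unfold g; simp [s0]
    have e1 : g s1 = 1 := by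
      unfold g; rw [if_neg (by simp [s1]; omega), if_pos (by simp [s1])]
    rw [e0, e1]; omega
  have hsum : stat (X s0) + stat (X s2) = stat (X s1) + stat (X s1) := by
    unfold stat
    rw [← Finset.sum_add_distrib, ← Finset.sum_add_distrib]
    exact Finset.sum_congr rfl fun j _ => (hloc j).1
  have hlt : stat (X s0) < stat (X s1) := by
    unfold stat
    exact Finset.sum_lt_sum (fun j _ => (hloc j).2) ⟨i, Finset.mem_univ _, hi'⟩
  have := hB (hS _ (hTS (hX s0))) (hS _ (hTS (hX s1))) (hS _ (hTS (hX s2))) hsum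
  omega

end Pool.Agent.H22.Fe032b8
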