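import Mathlib
import Pool.Agent.H22.Fe032b8.Defs
import Pool.Agent.H22.Fe032b8.Proof

open Finset

namespace Pool.Agent.H22.Fe032b8

theorem sum_cons {k n : ℕ} (F : (Fin (n + 1) → Fin k) → ℝ) :
    ∑ x, F x = ∑ a : Fin k, ∑ x : Fin n → Fin k, F (Fin.cons a x) := by
  rw [← (Fin.consEquiv (fun _ : Fin (n + 1) => Fin k)).sum_comp, Fintype.sum_prod_type]
  rfl

theorem second_moment {k : ℕ} (h : Fin k → ℝ) (h0 : ∑ a, h a = 0) (hV : ∑ a, h a ^ 2 ≤ k) :
    ∀ (n : ℕ) (c : ℝ), ∑ x : Fin n → Fin k, (c + ∑ i, h (x i)) ^ 2 ≤ (k : ℝ) ^ n * (c ^ 2 + n) := by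
  intro n
  induction n with
  | zero => intro c; simp
  | succ n ih =>
    intro c
    rw [sum_cons]
    have h1 : ∀ a : Fin k, ∑ x : Fin n → Fin k, (c + ∑ i, h ((Fin.cons a x : Fin (n + 1) → Fin k) i)) ^ 2
        ≤ (k : ℝ) ^ n * ((c + h a) ^ 2 + n) := by
      intro a
      refine le_trans (le_of_eq ?_) (ih (c + h a))
      refine Finset.sum_congr rfl fun x _ => ?_
      rw [Fin.sum_univ_succ]
      simp only [Fin.cons_zero, Fin.cons_succ]
      ring
    refine (Finset.sum_le_sum fun a _ => h1 a).trans ?_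
    rw [← Finset.mul_sum]
    have h2 : ∑ a : Fin k, ((c + h a) ^ 2 + (n : ℝ)) = k * c ^ 2 + ∑ a, h a ^ 2 + k * n := by
      have : ∀ a : Fin k, (c + h a) ^ 2 + (n : ℝ) = c ^ 2 + 2 * c * h a + h a ^ 2 + n := by
        intro a; ring
      simp only [this, Finset.sum_add_distrib, ← Finset.mul_sum, h0, Finset.sum_const,
        Finset.card_univ, Fintype.card_fin, nsmul_eq_mul]
      ring
    rw [h2]
    have hk0 : (0 : ℝ) ≤ (k : ℝ) ^ n := by positivity
    push_cast
    calc (k : ℝ) ^ n * (k * c ^ 2 + ∑ a, h a ^ 2 + k * n)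
        ≤ (k : ℝ) ^ n * (k * c ^ 2 + k + k * n) := by
          apply mul_le_mul_of_nonneg_left _ hk0; linarith
      _ = (k : ℝ) ^ (n + 1) * (c ^ 2 + (n + 1)) := by ring

/-- At least half of the points have their statistic in a window of length `O(√n)`. -/
theorem window {k n : ℕ} (hk : 1 ≤ k) (hn : 1 ≤ n) :
    ∃ L : ℕ, (k : ℝ) ^ n / 2 ≤
      (((Finset.univ : Finset (Fin n → Fin k)).filter
        (fun x => L ≤ stat x ∧ stat x < L + 4096 * (Nat.sqrt n + 1))).card : ℝ) := by
  classical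
  have hkr : (0 : ℝ) < k := by exact_mod_cast hk
  have hnr : (0 : ℝ) < n := by exact_mod_cast hn
  set μ : ℝ := (∑ a : Fin k, (g a : ℝ)) / k with hμ
  set h : Fin k → ℝ := fun a => (g a : ℝ) - μ with hh
  have h0 : ∑ a, h a = 0 := by
    simp only [hh, Finset.sum_sub_distrib, Finset.sum_const, Finset.card_univ, Fintype.card_fin,
      nsmul_eq_mul]
    rw [hμ]
    field_simp
    ring
  have hV : ∑ a, h a ^ 2 ≤ (k : ℝ) := by
    have h1 : ∑ a : Fin k, ((g a : ℝ) - 1) ^ 2 ≤ (k : ℝ) := by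
      have : ∀ a : Fin k, ((g a : ℝ) - 1) ^ 2 ≤ 1 := by
        intro a
        have h1 : (g a : ℝ) ≤ 2 := by exact_mod_cast g_le a
        have h2 : (0 : ℝ) ≤ (g a : ℝ) := Nat.cast_nonneg _
        nlinarith
      calc _ ≤ ∑ _a : Fin k, (1 : ℝ) := Finset.sum_le_sum fun a _ => this a
        _ = k := by simp
    have h2 : ∑ a : Fin k, ((g a : ℝ) - 1) ^ 2 = ∑ a, h a ^ 2 + (k : ℝ) * (μ - 1) ^ 2 := by
      have : ∀ a : Fin k, ((g a : ℝ) - 1) ^ 2 = h a ^ 2 + 2 * (μ - 1) * h a + (μ - 1) ^ 2 := by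
        intro a; simp only [hh]; ring
      simp only [this, Finset.sum_add_distrib, ← Finset.mul_sum, h0, Finset.sum_const,
        Finset.card_univ, Fintype.card_fin, nsmul_eq_mul]
      ring
    have h3 : (0 : ℝ) ≤ (k : ℝ) * (μ - 1) ^ 2 := by positivity
    linarith
  have hstat : ∀ x : Fin n → Fin k, ∑ i, h (x i) = (stat x : ℝ) - n * μ := by
    intro x
    simp only [hh, Finset.sum_sub_distrib, Finset.sum_const, Finset.card_univ, Fintype.card_fin,
      nsmul_eq_mul, stat]
    push_cast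
    ring
  have hsm := second_moment h h0 hV n 0
  simp only [zero_add, hstat] at hsm
  set D : Finset (Fin n → Fin k) :=
    Finset.univ.filter (fun x => 2 * (n : ℝ) ≤ ((stat x : ℝ) - n * μ) ^ 2) with hD
  have hDcard : (D.card : ℝ) ≤ (k : ℝ) ^ n / 2 := by
    have h1 : (D.card : ℝ) * (2 * n) ≤ ∑ x : Fin n → Fin k, ((stat x : ℝ) - n * μ) ^ 2 := by
      calc (D.card : ℝ) * (2 * n) = ∑ _x ∈ D, (2 * (n : ℝ)) := by
            rw [Finset.sum_const, nsmul_eq_mul]
        _ ≤ ∑ x ∈ D, ((stat x : ℝ) - n * μ) ^ 2 := by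
            refine Finset.sum_le_sum fun x hx => ?_
            rw [hD, Finset.mem_filter] at hx
            exact hx.2
        _ ≤ _ := by
            refine Finset.sum_le_sum_of_subset_of_nonneg (Finset.subset_univ _) fun x _ _ => ?_
            positivity
    have h2 : (D.card : ℝ) * (2 * n) ≤ (k : ℝ) ^ n / 2 * (2 * n) := by
      refine (h1.trans hsm).trans (le_of_eq ?_)
      ring
    exact le_of_mul_le_mul_right h2 (by positivity)
  set L : ℕ := ⌈(n : ℝ) * μ - Real.sqrt (2 * n)⌉₊ with hL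
  refine ⟨L, ?_⟩
  set W : Finset (Fin n → Fin k) := (Finset.univ : Finset (Fin n → Fin k)).filter
        (fun x => L ≤ stat x ∧ stat x < L + 4096 * (Nat.sqrt n + 1)) with hW
  have hsub : Finset.univ \ D ⊆ W := by
    intro x hx
    rw [Finset.mem_sdiff] at hx
    have hx2 : ((stat x : ℝ) - n * μ) ^ 2 < 2 * n := by
      by_contra hcon
      push Not at hcon
      exact hx.2 (by rw [hD, Finset.mem_filter]; exact ⟨Finset.mem_univ _, hcon⟩)
    have hab := Real.sqrt_lt_sqrt (sq_nonneg _) hx2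
    rw [Real.sqrt_sq_eq_abs] at hab
    rw [abs_lt] at hab
    rw [hW, Finset.mem_filter]
    refine ⟨Finset.mem_univ _, ?_, ?_⟩
    · rw [hL, Nat.ceil_le]
      linarith [hab.1]
    · have h1 : (n : ℝ) * μ - Real.sqrt (2 * n) ≤ L := Nat.le_ceil _
      have h2 : Real.sqrt (2 * n) ≤ 2 * Real.sqrt n := by
        rw [Real.sqrt_mul (by norm_num)]
        have : Real.sqrt 2 ≤ 2 := by
          rw [Real.sqrt_le_left (by norm_num)]; norm_num
        exact mul_le_mul_of_nonneg_right this (Real.sqrt_nonneg _)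
      have h3 : Real.sqrt n ≤ (Nat.sqrt n : ℝ) + 1 := by
        rw [Real.sqrt_le_left (by positivity)]
        have := Nat.lt_succ_sqrt n
        have h4 : n ≤ (Nat.sqrt n + 1) ^ 2 := by
          rw [Nat.succ_eq_add_one] at this
          nlinarith
        exact_mod_cast h4
      have h5 : (stat x : ℝ) < L + 4096 * ((Nat.sqrt n : ℝ) + 1) := by
        have := hab.2
        have h6 : (0 : ℝ) ≤ (Nat.sqrt n : ℝ) := Nat.cast_nonneg _
        linarith
      exact_mod_cast h5
  have hcard : (Finset.univ \ D).card ≤ W.card := Finset.card_le_card hsub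
  have h1 : (Finset.univ \ D).card = k ^ n - D.card := by
    rw [Finset.card_sdiff_of_subset (Finset.subset_univ _), Finset.card_univ, Fintype.card_fun,
      Fintype.card_fin, Fintype.card_fin]
  have h2 : D.card ≤ k ^ n := by
    have := Finset.card_le_univ D
    rwa [Fintype.card_fun, Fintype.card_fin, Fintype.card_fin] at this
  have h3 : (k : ℝ) ^ n - D.card ≤ (W.card : ℝ) := by
    rw [h1] at hcard
    have : k ^ n ≤ W.card + D.card := by omega
    have : ((k ^ n : ℕ) : ℝ) ≤ (W.card : ℝ) + D.card := by exact_mod_cast this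
    push_cast at this
    linarith
  linarith

/-- Averaging over translates. -/
theorem averaging {α : Type} [DecidableEq α] (W : Finset α) (f : α → ℕ) (L N : ℕ) (hN : 0 < N)
    (hW : ∀ x ∈ W, L ≤ f x ∧ f x < L + N) (R : Finset ℕ) (hR : R ⊆ range N) :
    ∃ s : ℕ, W.card * R.card ≤
      2 * N * (W.filter (fun x => ∃ a ∈ R, f x + N = L + a + s)).card := by
  classical
  by_contra hcon
  push Not at hcon
  have h1 : ∑ s ∈ range (2 * N), (W.filter (fun x => ∃ a ∈ R, f x + N = L + a + s)).card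
      = W.card * R.card := by
    simp only [Finset.card_filter]
    rw [Finset.sum_comm]
    have h2 : ∀ x ∈ W, ∑ s ∈ range (2 * N), (if ∃ a ∈ R, f x + N = L + a + s then 1 else 0)
        = R.card := by
      intro x hx
      rw [← Finset.card_filter]
      symm
      apply Finset.card_bij (fun a _ => f x + N - L - a)
      · intro a ha
        have h3 := hW x hx
        have h4 := Finset.mem_range.1 (hR ha)
        rw [Finset.mem_filter, Finset.mem_range]
        refine ⟨by omega, a, ha, by omega⟩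
      · intro a ha b hb hab
        have h3 := hW x hx
        have h4 := Finset.mem_range.1 (hR ha)
        have h5 := Finset.mem_range.1 (hR hb)
        have hab' : f x + N - L - a = f x + N - L - b := hab
        omega
      · intro s hs
        rw [Finset.mem_filter] at hs
        obtain ⟨-, a, ha, h3⟩ := hs
        exact ⟨a, ha, by omega⟩
    rw [Finset.sum_congr rfl h2, Finset.sum_const, smul_eq_mul]
  have h3 : ∑ s ∈ range (2 * N), 2 * N * (W.filter (fun x => ∃ a ∈ R, f x + N = L + a + s)).card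
      < ∑ _s ∈ range (2 * N), W.card * R.card := by
    apply Finset.sum_lt_sum_of_nonempty
    · exact Finset.nonempty_range_iff.2 (by omega)
    · intro s _
      exact hcon s
  rw [← Finset.mul_sum, h1, Finset.sum_const, Finset.card_range, smul_eq_mul] at h3
  exact lt_irrefl _ h3

theorem exists_lineFree {k n : ℕ} (hk : 5 ≤ k) (hn : 1 ≤ n) :
    ∃ S : Finset (Fin n → Fin k), LineFree S ∧
      (k : ℝ) ^ n * Real.exp (-4 * Real.sqrt (Real.log ((4096 * (Nat.sqrt n + 1) : ℕ) : ℝ))) / 4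
        ≤ S.card := by
  classical
  obtain ⟨L, hL⟩ := window (k := k) (n := n) (by omega) hn
  obtain ⟨N, hN⟩ : ∃ N, N = 4096 * (Nat.sqrt n + 1) := ⟨_, rfl⟩
  rw [← hN] at hL ⊢
  obtain ⟨R, hR, hRc, hRf⟩ := rothNumberNat_spec N
  set W : Finset (Fin n → Fin k) := (Finset.univ : Finset (Fin n → Fin k)).filter
        (fun x => L ≤ stat x ∧ stat x < L + N) with hW
  have hN0 : 0 < N := by
    rw [hN]
    exact Nat.mul_pos (by norm_num) (Nat.succ_pos _)
  obtain ⟨s, hs⟩ := averaging W stat L N hN0 (fun x hx => by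
    rw [hW, Finset.mem_filter] at hx; exact hx.2) R hR
  refine ⟨W.filter (fun x => ∃ a ∈ R, stat x + N = L + a + s), ?_, ?_⟩
  · apply lineFree_of_threeAPFree hk {t | ∃ a ∈ R, t + N = L + a + s}
    · rintro t1 ⟨a1, ha1, h1⟩ t2 ⟨a2, ha2, h2⟩ t3 ⟨a3, ha3, h3⟩ h
      have := hRf ha1 ha2 ha3 (by omega)
      omega
    · intro x hx
      rw [Finset.mem_filter] at hx
      exact hx.2
  · have h4096 : 4096 ≤ N := by
      rw [hN]
      exact Nat.le_mul_of_pos_right _ (Nat.succ_pos _)
    have hroth := (Behrend.roth_lower_bound_explicit h4096).le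
    rw [← hRc] at hroth
    have hNr : (0 : ℝ) < N := by
      have : 0 < N := lt_of_lt_of_le (by norm_num) h4096
      exact_mod_cast this
    set E := Real.exp (-4 * Real.sqrt (Real.log (N : ℝ))) with hE
    set A := W.filter (fun x => ∃ a ∈ R, stat x + N = L + a + s) with hA
    have hs' : (W.card : ℝ) * R.card ≤ 2 * N * A.card := by exact_mod_cast hs
    have h1 : (k : ℝ) ^ n / 2 * (N * E) ≤ (W.card : ℝ) * R.card := by
      exact mul_le_mul hL hroth (mul_nonneg hNr.le (Real.exp_pos _).le) (Nat.cast_nonneg _)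
    have h2 : (k : ℝ) ^ n * E / 4 * (2 * N) ≤ A.card * (2 * N) := by
      calc (k : ℝ) ^ n * E / 4 * (2 * N) = (k : ℝ) ^ n / 2 * (N * E) := by ring
        _ ≤ _ := h1.trans hs'
        _ = _ := by ring
    exact le_of_mul_le_mul_right h2 (by positivity)

end Pool.Agent.H22.Fe032b8
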