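import Mathlib
import Pool.Agent.H22.Fe032b8.Defs
import Pool.Agent.H22.Fe032b8.Proof
import Pool.Agent.H22.Fe032b8.Count

open Finset

namespace Pool.Agent.H22.Fe032b8

theorem log_bound {n : ℕ} (hn : 1 ≤ n) :
    Real.log ((4096 * (Nat.sqrt n + 1) : ℕ) : ℝ) ≤ 13.5 * Real.log ((n : ℝ) + 1) := by
  have hn1 : (1 : ℝ) ≤ n := by exact_mod_cast hn
  have hs0 : (0 : ℝ) ≤ (Nat.sqrt n : ℝ) := Nat.cast_nonneg _
  have h2 : Real.log 2 ≤ Real.log ((n : ℝ) + 1) := Real.log_le_log (by norm_num) (by linarith)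
  have h3 : Real.log ((Nat.sqrt n : ℝ) + 1) ≤ Real.log 2 + 1 / 2 * Real.log ((n : ℝ) + 1) := by
    have h4 : ((Nat.sqrt n : ℝ) + 1) ≤ 2 * Real.sqrt ((n : ℝ) + 1) := by
      have h5 : (Nat.sqrt n : ℝ) ≤ Real.sqrt ((n : ℝ) + 1) := by
        apply Real.le_sqrt_of_sq_le
        have := Nat.sqrt_le n
        have h6 : ((Nat.sqrt n : ℝ)) * (Nat.sqrt n : ℝ) ≤ n := by exact_mod_cast this
        nlinarith
      have h7 : (1 : ℝ) ≤ Real.sqrt ((n : ℝ) + 1) := by
        rw [Real.one_le_sqrt]; linarith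
      linarith
    calc Real.log ((Nat.sqrt n : ℝ) + 1) ≤ Real.log (2 * Real.sqrt ((n : ℝ) + 1)) :=
          Real.log_le_log (by positivity) h4
      _ = Real.log 2 + 1 / 2 * Real.log ((n : ℝ) + 1) := by
          rw [Real.log_mul (by norm_num) (by positivity), Real.log_sqrt (by positivity)]
          ring
  push_cast
  rw [Real.log_mul (by norm_num) (by positivity)]
  have h8 : Real.log 4096 = 12 * Real.log 2 := by
    rw [show (4096 : ℝ) = 2 ^ 12 by norm_num, Real.log_pow]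
    norm_num
  rw [h8]
  linarith

theorem exp_bound {n : ℕ} (hn : 1 ≤ n) :
    Real.exp (-17 * Real.sqrt (Real.log ((n : ℝ) + 1))) ≤
      Real.exp (-4 * Real.sqrt (Real.log ((4096 * (Nat.sqrt n + 1) : ℕ) : ℝ))) / 4 := by
  have hn1 : (1 : ℝ) ≤ n := by exact_mod_cast hn
  have h1 := log_bound hn
  set l := Real.log ((n : ℝ) + 1) with hl
  set N := Real.log ((4096 * (Nat.sqrt n + 1) : ℕ) : ℝ) with hN
  have hl2 : Real.log 2 ≤ l := Real.log_le_log (by norm_num) (by linarith)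
  have hlog2 : (0.6931471803 : ℝ) < Real.log 2 := Real.log_two_gt_d9
  have hlog2' : Real.log 2 < (0.6931471808 : ℝ) := Real.log_two_lt_d9
  have hl0 : 0 < l := by linarith
  have h4 : (4 : ℝ)⁻¹ = Real.exp (-2 * Real.log 2) := by
    rw [show (-2 : ℝ) * Real.log 2 = -(2 * Real.log 2) by ring, Real.exp_neg,
      show (2 : ℝ) * Real.log 2 = Real.log 4 by
        rw [show (4 : ℝ) = 2 ^ 2 by norm_num, Real.log_pow]; norm_num, Real.exp_log (by norm_num)]
  rw [div_eq_mul_inv, h4, ← Real.exp_add]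
  apply Real.exp_le_exp.2
  have hsN : Real.sqrt N ≤ 3.7 * Real.sqrt l := by
    have : Real.sqrt N ≤ Real.sqrt (13.69 * l) := Real.sqrt_le_sqrt (by linarith)
    refine this.trans (le_of_eq ?_)
    rw [Real.sqrt_mul (by norm_num), show (13.69 : ℝ) = 3.7 ^ 2 by norm_num,
      Real.sqrt_sq (by norm_num)]
  have hsl : 0.83 ≤ Real.sqrt l := by
    apply Real.le_sqrt_of_sq_le
    nlinarith
  nlinarith

/-- The quantitative bound. -/
theorem bound {k n : ℕ} (hk : 5 ≤ k) (hn : 1 ≤ n) :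
    ∃ S : Finset (Fin n → Fin k), LineFree S ∧
      (k : ℝ) ^ n * Real.exp (-17 * Real.sqrt (Real.log ((n : ℝ) + 1))) ≤ S.card := by
  obtain ⟨S, hS, hc⟩ := exists_lineFree hk hn
  refine ⟨S, hS, le_trans ?_ hc⟩
  rw [mul_div_assoc]
  exact mul_le_mul_of_nonneg_left (exp_bound hn) (by positivity)

/-- The answer to the question for `k ≥ 5`. -/
theorem limit {k : ℕ} (hk : 5 ≤ k) (c : ℝ) :
    ∃ N : ℕ, ∀ n : ℕ, N ≤ n → ∃ S : Finset (Fin n → Fin k), LineFree S ∧
      c * (k : ℝ) ^ n / Real.sqrt n ≤ S.card := by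
  -- `exp (-17 √log (n+1)) √n → ∞`
  have h1 : Filter.Tendsto (fun n : ℕ => Real.sqrt (Real.log ((n : ℝ) + 1))) Filter.atTop
      Filter.atTop := by
    refine Filter.Tendsto.comp ?_ ?_ (y := Filter.atTop)
    · exact Real.tendsto_sqrt_atTop
    · exact Real.tendsto_log_atTop.comp
        (Filter.tendsto_atTop_add_const_right _ 1 tendsto_natCast_atTop_atTop)
  have h2 := h1.eventually_ge_atTop (|c| + 40)
  rw [Filter.eventually_atTop] at h2
  obtain ⟨N, hN⟩ := h2
  refine ⟨max N 1, fun n hn => ?_⟩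
  have hn1 : 1 ≤ n := (le_max_right _ _).trans hn
  obtain ⟨S, hS, hc⟩ := bound hk hn1
  refine ⟨S, hS, le_trans ?_ hc⟩
  have ht := hN n ((le_max_left _ _).trans hn)
  set t := Real.sqrt (Real.log ((n : ℝ) + 1)) with htdef
  have hn1r : (1 : ℝ) ≤ n := by exact_mod_cast hn1
  have hlog0 : 0 ≤ Real.log ((n : ℝ) + 1) := Real.log_nonneg (by linarith)
  have ht2 : t ^ 2 = Real.log ((n : ℝ) + 1) := Real.sq_sqrt hlog0
  have hc0 : 0 ≤ |c| := abs_nonneg c
  have ht0 : 0 ≤ t := Real.sqrt_nonneg _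
  -- `√n ≥ exp (t²/2) / 2`
  have hsq : Real.exp (t ^ 2 / 2) / 2 ≤ Real.sqrt n := by
    apply Real.le_sqrt_of_sq_le
    have : (Real.exp (t ^ 2 / 2) / 2) ^ 2 = Real.exp (t ^ 2) / 4 := by
      have e : ((2 : ℕ) : ℝ) * (t ^ 2 / 2) = t ^ 2 := by push_cast; ring
      rw [div_pow, ← Real.exp_nat_mul, e]
      norm_num
    rw [this, ht2, Real.exp_log (by linarith)]
    linarith
  have hsn0 : 0 < Real.sqrt n := Real.sqrt_pos.2 (by linarith)
  rw [mul_comm c, mul_div_assoc]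
  apply mul_le_mul_of_nonneg_left _ (by positivity)
  rw [div_le_iff₀ hsn0]
  calc c ≤ |c| := le_abs_self c
    _ ≤ Real.exp |c| / 2 * 2 := by
        have := Real.add_one_le_exp |c|
        linarith
    _ ≤ Real.exp (-17 * t) * (Real.exp (t ^ 2 / 2) / 2) := by
        rw [← mul_div_assoc, ← Real.exp_add]
        have h2e : (2 : ℝ) ≤ Real.exp 1 := by
          have := Real.add_one_le_exp (1 : ℝ)
          linarith
        have : Real.exp |c| * 2 ≤ Real.exp (-17 * t + t ^ 2 / 2) := by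
          calc Real.exp |c| * 2 ≤ Real.exp |c| * Real.exp 1 :=
                mul_le_mul_of_nonneg_left h2e (Real.exp_pos _).le
            _ = Real.exp (|c| + 1) := by rw [Real.exp_add]
            _ ≤ _ := by
                apply Real.exp_le_exp.2
                nlinarith
        linarith
    _ ≤ Real.exp (-17 * t) * Real.sqrt n := mul_le_mul_of_nonneg_left hsq (Real.exp_pos _).le

end Pool.Agent.H22.Fe032b8
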